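import Mathlib
import Pool.Prelude.Def_F_c31e40fa
import Pool.Agent.Y272.GA.Jb
import Pool.Agent.Y272.GA.Pl
import Pool.Agent.Y272.EX.Opt
import Pool.Agent.Y298.EX.All
import Pool.Agent.Y331.GJ.Zero

/-!
# Invariant line fields near Collet-Eckmann unicritical polynomials: quantitative bounds

Let `d ≥ 2`, and let `c₀` be a point of the Multibrot set `M_d` which satisfies the Collet-Eckmann
condition: the derivatives of the iterates of `f = z ^ d + c₀` at the critical value grow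
exponentially. We consider ALL polynomials `T` of degree `d` whose coefficients are within `r` of
those of `f`; so the critical point of `f` of order `d - 1` splits, in general, into `d - 1` critical
points, and nothing is assumed about their orbits. With an exponent `E₀ > 2`:

(0) For EVERY map `g` which is holomorphic in the disc of radius `9` and within `r` of `f` there (for
example rational or entire), the set of the points whose orbits stay in the disc of radius `5 / 2`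
(the filled Julia set of the polynomial-like restriction of `g`) has area at most `K r ^ E`, for every
`E < E₀ / d`.

(1) So the filled Julia set of EVERY such `T` has area at most `K r ^ E`, for every `E < E₀ / d`, and
the support of any invariant line field on the Julia set of `T` has area at most `K r ^ E`.

(2) In each translation family `T + t`, `|t| ≤ r`, the polynomials with an invariant line field on
their Julia set have area at most `K r ^ E`, for every `E < E₀`; more generally this holds for the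
polynomials whose filled Julia set has positive area.

(3) In the space of coefficients the proportion of the polynomials with an invariant line field on
their Julia set (more generally: whose filled Julia set has positive area) is at most `K r ^ E`, for
every `E < E₀ - 2`.

If the critical value has a Lyapunov exponent (this is so for harmonic-almost every boundary point)
then `E₀ = 2 d / (d - 1)`, and the exponent `E₀ / d = 2 / (d - 1)` in (1) is optimal.

Method: the supremum of the areas of the non-escaping points over all slow curves in the space of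
polynomials (for (0): of the maps) near `f` satisfies a self-improving inequality; the constant curves
give (0) and (1), and curves of critical values give (2).
-/

set_option autoImplicit false

open MeasureTheory Filter Metric Topology Polynomial

namespace Pool.Agent.Results.MP_70a088_an.JuliaAreaColletEckmann

open Pool.Agent.H713R2 (IsExteriorMap)

/-- The polynomial as a self-map of the plane. -/
def map (T : ℂ[X]) : ℂ → ℂ := fun z : ℂ => T.eval z

/-- The filled Julia set: the points whose orbits do not tend to infinity. -/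
def filled (T : ℂ[X]) : Set ℂ :=
  {z : ℂ | ¬ Tendsto (fun k : ℕ => ‖(map T)^[k] z‖) atTop atTop}

/-- The Julia set. -/
def julia (T : ℂ[X]) : Set ℂ := frontier (filled T)

/-- `μ` is an invariant line field supported on the Julia set of `T`; it is of absolute value one on
the set `S` of positive measure, and vanishes off `S`. -/
structure LineField (T : ℂ[X]) (μ : ℂ → ℂ) (S : Set ℂ) : Prop where
  meas : Measurable μ
  one : ∀ z ∈ S, ‖μ z‖ = 1
  off : ∀ z, z ∉ S → μ z = 0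
  pos : 0 < volume S
  sub : S ⊆ julia T
  inv : ∀ᵐ z : ℂ, μ (map T z) * (starRingEnd ℂ (deriv (map T) z) / deriv (map T) z) = μ z

/-- `T` has an invariant line field supported on its Julia set. -/
def HasLineField (T : ℂ[X]) : Prop := ∃ (μ : ℂ → ℂ) (S : Set ℂ), LineField T μ S

/-- The polynomials of degree at most `d` whose coefficients are within `r` of those of the
polynomial `z ^ d + c₀`. -/
def near (d : ℕ) (c₀ : ℂ) (r : ℝ) : Set ℂ[X] :=
  {T | T.natDegree ≤ d ∧ ∀ i : ℕ, ‖T.coeff i - (X ^ d + C c₀ : ℂ[X]).coeff i‖ ≤ r}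

/-- The vectors of coefficients (of the degrees `0, …, d`) within `r` of those of `z ^ d + c₀`. -/
def box (d : ℕ) (c₀ : ℂ) (r : ℝ) : Set (Fin (d + 1) → ℂ) :=
  {a | ∀ i : Fin (d + 1), ‖a i - (X ^ d + C c₀ : ℂ[X]).coeff i‖ ≤ r}

/-- The polynomial with the given coefficients. -/
noncomputable def poly {d : ℕ} (a : Fin (d + 1) → ℂ) : ℂ[X] :=
  ∑ i : Fin (d + 1), C (a i) * X ^ (i : ℕ)

/-- The points whose orbits stay in the closed disc of radius `5 / 2`. -/
def bounded (g : ℂ → ℂ) : Set ℂ := {z : ℂ | ∀ n : ℕ, ‖g^[n] z‖ ≤ 5 / 2}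

/-- The bounds near the polynomial `z ^ d + c₀` with the exponent `E₀`. -/
def SmallAt (d : ℕ) (c₀ : ℂ) (E₀ : ℝ) : Prop :=
  (∀ E : ℝ, 0 ≤ E → E < E₀ / d → ∃ K r₀ : ℝ, 0 < K ∧ 0 < r₀ ∧ ∀ r : ℝ, 0 < r → r ≤ r₀ →
    ∀ g : ℂ → ℂ, DifferentiableOn ℂ g (ball 0 9) → (∀ z ∈ ball (0 : ℂ) 9, ‖g z - (z ^ d + c₀)‖ ≤ r) →
      volume (bounded g) ≤ ENNReal.ofReal (K * r ^ E)) ∧
  (∀ E : ℝ, 0 ≤ E → E < E₀ / d → ∃ K r₀ : ℝ, 0 < K ∧ 0 < r₀ ∧ ∀ r : ℝ, 0 < r → r ≤ r₀ →
    ∀ T ∈ near d c₀ r, volume (filled T) ≤ ENNReal.ofReal (K * r ^ E) ∧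
      ∀ (μ : ℂ → ℂ) (S : Set ℂ), LineField T μ S → volume S ≤ ENNReal.ofReal (K * r ^ E)) ∧
  (∀ E : ℝ, 0 ≤ E → E < E₀ → ∃ K r₀ : ℝ, 0 < K ∧ 0 < r₀ ∧ ∀ r : ℝ, 0 < r → r ≤ r₀ →
    ∀ T ∈ near d c₀ r,
      volume {t : ℂ | ‖t‖ ≤ r ∧ (volume (filled (T + C t)) ≠ 0 ∨ HasLineField (T + C t))} ≤
        ENNReal.ofReal (K * r ^ E)) ∧
  (∀ E : ℝ, 0 ≤ E → E < E₀ - 2 → ∃ K r₀ : ℝ, 0 < K ∧ 0 < r₀ ∧ ∀ r : ℝ, 0 < r → r ≤ r₀ →
    volume {a | a ∈ box d c₀ r ∧ (volume (filled (poly a)) ≠ 0 ∨ HasLineField (poly a))} ≤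
      ENNReal.ofReal (K * r ^ E) * volume (box d c₀ r))

/-- The polynomial `z ^ d + c`. -/
def f (d : ℕ) (c : ℂ) : ℂ → ℂ := fun z => z ^ d + c

/-- The Collet-Eckmann condition with explicit constants: `c` lies in the Multibrot set (and is not
`-2` if `d = 2`), and the derivatives of the iterates of `f d c` at the critical value `c` grow at
least like `lam ^ n / C₁`. -/
def ColletEckmann (d : ℕ) (C₁ lam : ℝ) (c : ℂ) : Prop :=
  c ∈ N62a1eb23.multibrotSet d ∧ (d = 2 → c ≠ -2) ∧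
    ∀ n : ℕ, lam ^ n ≤ C₁ * ‖deriv ((f d c)^[n]) c‖

/-- Near `z ^ d + c₀`, for every Collet-Eckmann parameter `c₀` of the Multibrot set, invariant line
fields on Julia sets are rare, and live on small sets, with power rates. -/
theorem result (d : ℕ) (hd : 2 ≤ d) :
    (∀ (C₁ lam : ℝ) (c₀ : ℂ), 1 ≤ C₁ → 1 < lam → ColletEckmann d C₁ lam c₀ →
      2 < 2 / (1 - Real.log lam / (d * Real.log (2 * d))) ∧
      SmallAt d c₀ (2 / (1 - Real.log lam / (d * Real.log (2 * d))))) ∧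
    (∀ (C₁ lam C₂ β : ℝ) (c₀ : ℂ), 1 ≤ C₁ → 1 < lam → 0 ≤ β → ColletEckmann d C₁ lam c₀ →
      (∀ n : ℕ, 1 ≤ C₂ * (‖(f d c₀)^[n] c₀‖ * ‖deriv ((f d c₀)^[n]) c₀‖ ^ β)) →
      SmallAt d c₀ (2 * d / ((d - 1) * (1 + β)))) ∧
    (∀ (χ : ℝ) (c₀ : ℂ), 0 < χ → c₀ ∈ N62a1eb23.multibrotSet d → (d = 2 → c₀ ≠ -2) →
      Tendsto (fun n : ℕ => Real.log ‖deriv ((f d c₀)^[n]) c₀‖ / n) atTop (𝓝 χ) →
      SmallAt d c₀ (2 * d / (d - 1)) ∧
      Tendsto (fun r : ℝ => Real.log (⨆ T ∈ near d c₀ r, volume (filled T)).toReal / Real.log r)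
        (𝓝[>] 0) (𝓝 (2 / (d - 1)))) ∧
    (∃ ψ : ℂ → ℂ, IsExteriorMap (N62a1eb23.multibrotSet d) ψ) ∧
    ∀ ψ : ℂ → ℂ, IsExteriorMap (N62a1eb23.multibrotSet d) ψ →
      ∀ᵐ θ : ℝ, ∃ c₀ ∈ frontier (N62a1eb23.multibrotSet d),
        Tendsto (fun r : ℝ => ψ (r * Complex.exp (θ * Complex.I))) (𝓝[>] 1) (𝓝 c₀) ∧
        Tendsto (fun n : ℕ => Real.log ‖deriv ((f d c₀)^[n]) c₀‖ / n) atTop (𝓝 (Real.log d)) ∧
        SmallAt d c₀ (2 * d / (d - 1)) ∧
        Tendsto (fun r : ℝ => Real.log (⨆ T ∈ near d c₀ r, volume (filled T)).toReal / Real.log r)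
          (𝓝[>] 0) (𝓝 (2 / (d - 1))) := by
  have hZ : Pool.Agent.Y272.GA.S_ZERO := Pool.Agent.Y331.GJ.t
  have hO : Pool.Agent.Y272.GA.S_OPT := Pool.Agent.Y272.EX.opt_of_low Pool.Agent.Y298.EX.low_all
  have hdR : (2 : ℝ) ≤ d := by exact_mod_cast hd
  have hd0 : 0 < (d : ℝ) := by linarith
  have hd1 : 0 < (d : ℝ) - 1 := by linarith
  -- line fields live on the filled Julia set
  have hsub : ∀ T : ℂ[X], IsClosed (filled T) → ∀ (μ : ℂ → ℂ) (S : Set ℂ), LineField T μ S →
      volume S ≤ volume (filled T) := by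
    intro T hcl μ S h
    exact measure_mono (h.sub.trans hcl.frontier_subset)
  -- the common part
  have small : ∀ (c₀ : ℂ) (E₀ : ℝ), ‖c₀‖ < 2 →
      (∀ E : ℝ, 0 ≤ E → E < E₀ → Pool.Agent.Y272.GA.AR d c₀ E) →
      (∀ E : ℝ, 0 ≤ E → E < E₀ / d → Pool.Agent.Y272.GA.AJ d c₀ E) →
      (∀ E : ℝ, 0 ≤ E → E < E₀ / d → Pool.Agent.Y272.PL.AP d c₀ E) → SmallAt d c₀ E₀ := by
    intro c₀ E₀ hc hA hJ hP
    -- the filled Julia sets are closed
    obtain ⟨r₁, hr₁, hcl⟩ := Pool.Agent.Y272.GA.closed_near (d := d) hd hc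
    have hno : ∀ T ∈ near d c₀ r₁, volume (filled T) ≠ 0 ∨ HasLineField T →
        volume (filled T) ≠ 0 := by
      rintro T hT (h | ⟨μ, S, h⟩)
      · exact h
      · exact (h.pos.trans_le (hsub T (hcl T hT) μ S h)).ne'
    refine ⟨?_, ?_, ?_, ?_⟩
    · intro E hE0 hE
      obtain ⟨K, r₀, hK, hr₀, H⟩ := hP E hE0 hE
      refine ⟨K, r₀, hK, hr₀, ?_⟩
      intro r hr hrr g hg hgr
      have h1 : (fun z : ℂ => z ^ d + (g z - z ^ d)) = g := by
        funext z
        ring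
      have h2 := H r hr hrr (fun z => g z - z ^ d) (hg.sub (differentiable_id.pow d).differentiableOn)
        (fun z hz => by
          have h3 := hgr z hz
          rwa [← sub_sub] at h3)
      unfold Pool.Agent.Y272.PL.KP at h2
      rw [h1] at h2
      exact h2
    · intro E hE0 hE
      obtain ⟨K, r₀, hK, hr₀, H⟩ := Pool.Agent.Y272.GA.st_fill hd hc (hJ E hE0 hE)
      refine ⟨K, r₀, hK, hr₀, ?_⟩
      intro r hr hrr T hT
      obtain ⟨h1, h2⟩ := H r hr hrr T hT.1 hT.2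
      exact ⟨h2, fun μ S h => (hsub T h1 μ S h).trans h2⟩
    · intro E hE0 hE
      obtain ⟨K, r₀, hK, hr₀, H⟩ := Pool.Agent.Y272.GA.st_jarea hZ hd hc (hA E hE0 hE)
      refine ⟨K, min r₀ (r₁ / 2), hK, lt_min hr₀ (by positivity), ?_⟩
      intro r hr hrr T hT
      refine le_trans (measure_mono ?_) (H r hr (hrr.trans (min_le_left _ _)) T hT.1 hT.2)
      rintro t ⟨ht, h⟩
      refine ⟨ht, hno _ (Pool.Agent.Y272.GA.nr_mono ?_ (Pool.Agent.Y272.GA.nr_add hT ht)) h⟩
      have := hrr.trans (min_le_right _ _)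
      linarith
    · intro E hE0 hE
      obtain ⟨K, r₀, hK, hr₀, H⟩ := Pool.Agent.Y272.GA.st_jvol (E := E) hZ hd hc
        (hA _ (by linarith) (by linarith))
      refine ⟨K, min r₀ r₁, hK, lt_min hr₀ hr₁, ?_⟩
      intro r hr hrr
      refine le_trans (measure_mono ?_) (H r hr (hrr.trans (min_le_left _ _)))
      rintro a ⟨ha, h⟩
      exact ⟨ha, hno _ (Pool.Agent.Y272.GA.nr_mono (hrr.trans (min_le_right _ _))
        (Pool.Agent.Y272.GA.nr_box hr.le ha)) h⟩
  -- parameters with a Lyapunov exponent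
  have key : ∀ (χ : ℝ) (c₀ : ℂ), 0 < χ → c₀ ∈ N62a1eb23.multibrotSet d → (d = 2 → c₀ ≠ -2) →
      Tendsto (fun n : ℕ => Real.log ‖deriv ((f d c₀)^[n]) c₀‖ / n) atTop (𝓝 χ) →
      SmallAt d c₀ (2 * d / (d - 1)) ∧
      Tendsto (fun r : ℝ => Real.log (⨆ T ∈ near d c₀ r, volume (filled T)).toReal / Real.log r)
        (𝓝[>] 0) (𝓝 (2 / (d - 1))) := by
    intro χ c₀ hχ hc₀ hne hlim
    have h : Pool.Agent.Y298.CA.Lyap d χ c₀ := ⟨hχ, hc₀, hlim⟩
    have hc := Pool.Agent.Y272.GA.norm_lt_two hd hc₀ hne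
    have h1 : 2 * (d : ℝ) / (d - 1) / d = 2 / (d - 1) := by field_simp
    refine ⟨small c₀ _ hc (fun E hE0 hE => Pool.Agent.Y272.GA.ar_lyap hd h hE0 hE)
      (fun E hE0 hE => Pool.Agent.Y272.GA.aj_lyap hd h hE0 (by rwa [h1] at hE))
      (fun E hE0 hE => Pool.Agent.Y272.PL.ap_lyap hd h hE0 (by rwa [h1] at hE)),
      Pool.Agent.Y272.GA.st_jopt hO hd h hc⟩
  refine ⟨?_, ?_, key, ?_⟩
  · intro C₁ lam c₀ hC₁ hlam h
    have hce := Pool.Agent.Y298.SH.CD.cep_of_mem hd hC₁ hlam h.1 h.2.2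
    have hlog : 0 < Real.log (2 * d) := Real.log_pos (by linarith)
    have hll : 0 < Real.log lam := Real.log_pos hlam
    have hle : Real.log lam ≤ Real.log (2 * d) := Real.log_le_log (by linarith) hce.lam_le
    have hq0 : 0 < Real.log lam / (d * Real.log (2 * d)) := by positivity
    have hq1 : Real.log lam / (d * Real.log (2 * d)) < 1 := by
      rw [div_lt_one (by positivity)]
      nlinarith
    have hEd : ∀ E : ℝ, E < 2 / (1 - Real.log lam / (d * Real.log (2 * d))) / d →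
        E * (d - Real.log lam / Real.log (2 * d)) < 2 := by
      intro E hE
      rw [lt_div_iff₀ hd0, lt_div_iff₀ (by linarith)] at hE
      have h1 : E * (d - Real.log lam / Real.log (2 * d)) =
          E * d * (1 - Real.log lam / (d * Real.log (2 * d))) := by
        field_simp
      rw [h1]
      exact hE
    refine ⟨?_, small c₀ _ (Pool.Agent.Y272.GA.norm_lt_two hd h.1 h.2.1) ?_
      (fun E hE0 hE => Pool.Agent.Y272.GA.aj_ce hce hE0 (hEd E hE))
      (fun E hE0 hE => Pool.Agent.Y272.PL.ap_ce hce hE0 (hEd E hE))⟩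
    · rw [lt_div_iff₀ (by linarith)]
      linarith
    · intro E hE0 hE
      refine Pool.Agent.Y272.GA.ar_ce hce hE0 ?_
      rwa [lt_div_iff₀ (by linarith)] at hE
  · intro C₁ lam C₂ β c₀ hC₁ hlam hβ h hrec
    have hce := Pool.Agent.Y298.SH.CD.cep_of_mem hd hC₁ hlam h.1 h.2.2
    have hβ1 : 0 < 1 + β := by linarith
    have hEd : ∀ E : ℝ, E < 2 * d / ((d - 1) * (1 + β)) / d → E * (1 + β) < 2 / ((d : ℝ) - 1) := by
      intro E hE
      have h1 : 2 * (d : ℝ) / ((d - 1) * (1 + β)) / d = 2 / ((d - 1) * (1 + β)) := by field_simp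
      rw [h1, lt_div_iff₀ (by positivity)] at hE
      rw [lt_div_iff₀ hd1]
      linarith
    refine small c₀ _ (Pool.Agent.Y272.GA.norm_lt_two hd h.1 h.2.1) ?_
      (fun E hE0 hE => Pool.Agent.Y272.GA.aj_rec (C₂ := C₂) hce hrec hβ hE0 (hEd E hE))
      (fun E hE0 hE => Pool.Agent.Y272.PL.ap_rec (C₂ := C₂) hce hrec hβ hE0 (hEd E hE))
    intro E hE0 hE
    refine Pool.Agent.Y272.GA.ar_rec (C₂ := C₂) hce hrec hβ hE0 ?_
    rw [lt_div_iff₀ (by positivity)] at hE
    rw [lt_div_iff₀ hd1]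
    linarith
  · obtain ⟨β, hβ⟩ := Pool.Agent.H713R2.exists_beta (d := d) hd
    refine ⟨⟨_, Pool.Agent.H713R2.exteriorMap_of_beta hβ⟩, ?_⟩
    intro ψ hψ
    filter_upwards [Pool.Agent.Y272.TY.ae_neg' (Pool.Agent.Y272.TY.typical_all hd hβ)] with θ hθ
    obtain ⟨c₀, A, R, h⟩ := hθ
    obtain ⟨h1, h2, h3⟩ := Pool.Agent.Y298.CA.lyap_of_typ hd hβ h
    refine ⟨c₀, h.frontier hd hβ, h.tendsto_psi hβ hψ, h3, key _ c₀ h1 h2 ?_ h3⟩
    rintro rfl rfl
    have h4 := Pool.Agent.Y272.GA.lyap_neg_two ⟨h1, h2, h3⟩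
    have h5 := Real.log_injOn_pos (by norm_num : (((2 : ℕ) : ℝ)) ∈ Set.Ioi (0 : ℝ))
      (by norm_num : (4 : ℝ) ∈ Set.Ioi (0 : ℝ)) h4
    norm_num at h5

end Pool.Agent.Results.MP_70a088_an.JuliaAreaColletEckmann
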