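import Mathlib
import Pool.Prelude.Def_F_c31e40fa
import Pool.Agent.Y298.GA.JulRat
import Pool.Agent.Y298.GA.RFix
import Pool.Agent.Y298.CA.Typ
import Pool.Agent.Y657.GA.RBAS

/-!
# Invariant line fields of rational maps near Collet-Eckmann unicritical polynomials live on small
sets

Let `d ≥ 2`, and let `c₀` be a point of the Multibrot set `M_d` which satisfies the Collet-Eckmann
condition: the derivatives of the iterates of `z ^ d + c₀` at the critical value grow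
exponentially. We consider ALL rational maps `P / Q` of degree `d` whose coefficients are within `r`
of those of `(z ^ d + c₀) / 1`. The critical point `0` of order `d - 1` splits, in general, into
`d - 1` critical points, and nothing is assumed about their orbits; infinity is, in general, not even
periodic.

EVERY such map has an attracting fixed point `p` such that the set of the points whose orbits do not
converge to `p` has area at most `K r ^ E`, for every `E < E₀`. This set contains the Julia set; so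
the support of any invariant line field on the Julia set has area at most `K r ^ E`. If the critical
value has a Lyapunov exponent (this is so for harmonic-almost every boundary point of `M_d`) then
`E₀ = 2 / (d - 1)`.

Method: the supremum of the areas of the sets of non-escaping points over all slow holomorphic
families of maps `z ^ d + h (w, z)` near `z ^ d + c₀` satisfies a self-improving inequality
(`Pool.Agent.Y298.GA`); the constant families give the bound. The disc near infinity is mapped into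
itself, and is contained in the Fatou set by Montel's theorem.
-/

set_option autoImplicit false

open MeasureTheory Filter Metric Topology Polynomial

namespace Pool.Agent.Results.MP_70a088_an.RationalNearColletEckmann

open Pool.Agent.H713R2 (IsExteriorMap)

/-- The rational function `P / Q` of the plane. -/
noncomputable def map (P Q : ℂ[X]) : ℂ → ℂ := fun z => P.eval z / Q.eval z

/-- `f` is the rational map `P / Q` of the Riemann sphere, in lowest terms. -/
def IsRationalMap (P Q : ℂ[X]) (f : OnePoint ℂ → OnePoint ℂ) : Prop :=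
  IsCoprime P Q ∧ Q ≠ 0 ∧ Continuous f ∧
    ∀ z : ℂ, Q.eval z ≠ 0 → f (OnePoint.some z) = OnePoint.some (P.eval z / Q.eval z)

/-- The Fatou set: the points with a neighbourhood on which the iterates are equicontinuous (the
neighbourhoods `W` of the diagonal are the entourages of the uniform structure of the sphere). -/
def fatou (f : OnePoint ℂ → OnePoint ℂ) : Set (OnePoint ℂ) :=
  {x | ∃ U ∈ 𝓝 x, ∀ y ∈ U, ∀ W ∈ 𝓝ˢ (Set.diagonal (OnePoint ℂ)),
    ∀ᶠ z in 𝓝 y, ∀ n : ℕ, (f^[n] y, f^[n] z) ∈ W}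

/-- The finite points of the Julia set. -/
def julia (f : OnePoint ℂ → OnePoint ℂ) : Set ℂ := {z : ℂ | OnePoint.some z ∉ fatou f}

/-- `p` is an attracting fixed point. -/
def IsSink (f : OnePoint ℂ → OnePoint ℂ) (p : OnePoint ℂ) : Prop :=
  f p = p ∧ ∃ U ∈ 𝓝 p, ∀ w ∈ U, Tendsto (fun n : ℕ => f^[n] w) atTop (𝓝 p)

/-- The finite points whose orbits do not converge to `p`. -/
def outside (f : OnePoint ℂ → OnePoint ℂ) (p : OnePoint ℂ) : Set ℂ :=
  {z : ℂ | ¬ Tendsto (fun n : ℕ => f^[n] (OnePoint.some z)) atTop (𝓝 p)}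

/-- `μ` is an invariant line field of `P / Q` supported on the Julia set; it is of absolute value
one on the set `S` of positive measure, and vanishes off `S`. -/
structure LineField (P Q : ℂ[X]) (f : OnePoint ℂ → OnePoint ℂ) (μ : ℂ → ℂ) (S : Set ℂ) : Prop where
  meas : Measurable μ
  one : ∀ z ∈ S, ‖μ z‖ = 1
  off : ∀ z, z ∉ S → μ z = 0
  pos : 0 < volume S
  sub : S ⊆ julia f
  inv : ∀ᵐ z : ℂ,
    μ (map P Q z) * (starRingEnd ℂ (deriv (map P Q) z) / deriv (map P Q) z) = μ z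

/-- `P` and `Q` have degree at most `d`, and the coefficients of `P / Q` are at distance at most `r`
from those of `(z ^ d + c₀) / 1`. -/
def Near (d : ℕ) (c₀ : ℂ) (r : ℝ) (P Q : ℂ[X]) : Prop :=
  P.natDegree ≤ d ∧ Q.natDegree ≤ d ∧
    (∀ i, ‖P.coeff i - (X ^ d + C c₀ : ℂ[X]).coeff i‖ ≤ r) ∧
    ∀ i, ‖Q.coeff i - (1 : ℂ[X]).coeff i‖ ≤ r

/-- The bounds for all rational maps near `z ^ d + c₀` with the exponent `E₀`. -/
def SmallAt (d : ℕ) (c₀ : ℂ) (E₀ : ℝ) : Prop :=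
  ∀ E : ℝ, 0 ≤ E → E < E₀ → ∃ K r₀ : ℝ, 0 < K ∧ 0 < r₀ ∧ ∀ r : ℝ, 0 < r → r ≤ r₀ →
    ∀ P Q : ℂ[X], Near d c₀ r P Q →
      max P.natDegree Q.natDegree = d ∧ (∃ f, IsRationalMap P Q f) ∧
      ∀ f : OnePoint ℂ → OnePoint ℂ, IsRationalMap P Q f →
        (∃ p, IsSink f p ∧ volume (julia f ∪ outside f p) ≤ ENNReal.ofReal (K * r ^ E)) ∧
        ∀ (μ : ℂ → ℂ) (S : Set ℂ), LineField P Q f μ S → volume S ≤ ENNReal.ofReal (K * r ^ E)

/-- The polynomial `z ^ d + c`. -/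
def f (d : ℕ) (c : ℂ) : ℂ → ℂ := fun z => z ^ d + c

/-- The Collet-Eckmann condition with explicit constants: `c` lies in the Multibrot set, and the
derivatives of the iterates of `f d c` at the critical value `c` are at least `lam ^ n / C₁`. -/
def ColletEckmann (d : ℕ) (C₁ lam : ℝ) (c : ℂ) : Prop :=
  c ∈ N62a1eb23.multibrotSet d ∧ ∀ n : ℕ, lam ^ n ≤ C₁ * ‖deriv ((f d c)^[n]) c‖

/-- The Julia sets of all rational maps near `z ^ d + c₀`, for every Collet-Eckmann parameter `c₀` of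
the Multibrot set, have small area, with power rates. -/
theorem result (d : ℕ) (hd : 2 ≤ d) :
    (∀ (C₁ lam : ℝ) (c₀ : ℂ), 1 ≤ C₁ → 1 < lam → ColletEckmann d C₁ lam c₀ →
      (2 : ℝ) / d < 2 / (d - Real.log lam / Real.log (2 * d)) ∧
      SmallAt d c₀ (2 / (d - Real.log lam / Real.log (2 * d)))) ∧
    (∀ (C₁ lam C₂ β : ℝ) (c₀ : ℂ), 1 ≤ C₁ → 1 < lam → 0 ≤ β → ColletEckmann d C₁ lam c₀ →
      (∀ n : ℕ, 1 ≤ C₂ * (‖(f d c₀)^[n] c₀‖ * ‖deriv ((f d c₀)^[n]) c₀‖ ^ β)) →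
      SmallAt d c₀ (2 / ((d - 1) * (1 + β)))) ∧
    (∀ (χ : ℝ) (c₀ : ℂ), 0 < χ → c₀ ∈ N62a1eb23.multibrotSet d →
      Tendsto (fun n : ℕ => Real.log ‖deriv ((f d c₀)^[n]) c₀‖ / n) atTop (𝓝 χ) →
      SmallAt d c₀ (2 / (d - 1))) ∧
    (∃ ψ : ℂ → ℂ, IsExteriorMap (N62a1eb23.multibrotSet d) ψ) ∧
    ∀ ψ : ℂ → ℂ, IsExteriorMap (N62a1eb23.multibrotSet d) ψ →
      ∀ᵐ θ : ℝ, ∃ c₀ ∈ frontier (N62a1eb23.multibrotSet d),
        Tendsto (fun r : ℝ => ψ (r * Complex.exp (θ * Complex.I))) (𝓝[>] 1) (𝓝 c₀) ∧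
        SmallAt d c₀ (2 / (d - 1)) := by
  have hdR : (2 : ℝ) ≤ d := by exact_mod_cast hd
  have hd0 : 0 < (d : ℝ) := by linarith
  have hd1 : 0 < (d : ℝ) - 1 := by linarith
  have hb := Pool.Agent.Y657.GA.rbas
  have small : ∀ (c₀ : ℂ) (E₀ : ℝ), c₀ ∈ N62a1eb23.multibrotSet d →
      (∀ E : ℝ, 0 ≤ E → E < E₀ → Pool.Agent.Y298.GA.AK d c₀ E) → SmallAt d c₀ E₀ := by
    intro c₀ E₀ hc₀ hA E hE0 hE
    have hc : ‖c₀‖ ≤ 2 := Pool.Agent.TH279.MD.norm_le_two hd hc₀
    obtain ⟨K, r₁, hK, hr₁, H⟩ := Pool.Agent.Y298.GA.jarea hb hd hc (hA E hE0 hE)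
    obtain ⟨δ₁, hδ₁, -, H1⟩ := Pool.Agent.Y298.GA.rfix hb d hd
    obtain ⟨K₃, δ₃, -, hδ₃, -, H3⟩ := hb d hd
    refine ⟨K, min (min r₁ δ₁) δ₃, hK, lt_min (lt_min hr₁ hδ₁) hδ₃, ?_⟩
    intro r hr hrr P Q hPQ
    have e1 : r ≤ r₁ := hrr.trans ((min_le_left _ _).trans (min_le_left _ _))
    have e2 : r ≤ δ₁ := hrr.trans ((min_le_left _ _).trans (min_le_right _ _))
    have e4 : r ≤ δ₃ := hrr.trans (min_le_right _ _)
    have hN : Pool.Agent.Y298.GA.Nr d c₀ r P Q := ⟨hPQ.1, hPQ.2.1, hPQ.2.2.1, hPQ.2.2.2⟩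
    obtain ⟨-, -, -, hcop, hQ0, hmax, -⟩ := H3 c₀ r P Q hc hr.le e4 hN
    obtain ⟨g, hg, -⟩ := Pool.Agent.Helper114.Konig.exists_isRat hcop hQ0
    refine ⟨hmax, ⟨g, hg.cop, hg.ne, hg.cont, hg.eval⟩, ?_⟩
    intro f' hf'
    have hf : Pool.Agent.Helper114.Herman.IsRat f' P Q := ⟨hf'.2.2.1, hf'.1, hf'.2.1, hf'.2.2.2⟩
    obtain ⟨p, hp, hU, H2⟩ := H1 c₀ r P Q f' hc hr.le e2 hN hf
    have hsub : julia f' ∪ outside f' p ⊆
        {z : ℂ | ∀ n : ℕ, ‖(fun y => P.eval y / Q.eval y)^[n] z‖ ≤ 5 / 2} := fun z hz => H2 z hz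
    have hvol := (measure_mono hsub).trans (H r hr e1 P Q hN)
    refine ⟨⟨p, ⟨hp, hU⟩, hvol⟩, ?_⟩
    intro μ S hS
    exact (measure_mono (hS.sub.trans Set.subset_union_left)).trans hvol
  have key : ∀ (χ : ℝ) (c₀ : ℂ), 0 < χ → c₀ ∈ N62a1eb23.multibrotSet d →
      Tendsto (fun n : ℕ => Real.log ‖deriv ((f d c₀)^[n]) c₀‖ / n) atTop (𝓝 χ) →
      SmallAt d c₀ (2 / (d - 1)) := by
    intro χ c₀ hχ hc₀ hlim
    have h : Pool.Agent.Y298.CA.Lyap d χ c₀ := ⟨hχ, hc₀, hlim⟩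
    exact small c₀ _ hc₀ fun E hE0 hE => Pool.Agent.Y298.GA.ak_lyap hd h hE0 hE
  refine ⟨?_, ?_, key, ?_⟩
  · intro C₁ lam c₀ hC₁ hlam h
    have hce := Pool.Agent.Y298.SH.CD.cep_of_mem hd hC₁ hlam h.1 h.2
    have hlog : 0 < Real.log (2 * d) := Real.log_pos (by linarith)
    have hll : 0 < Real.log lam := Real.log_pos hlam
    have hle : Real.log lam ≤ Real.log (2 * d) := Real.log_le_log (by linarith) hce.lam_le
    have hq0 : 0 < Real.log lam / Real.log (2 * d) := by positivity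
    have hq1 : Real.log lam / Real.log (2 * d) ≤ 1 := by
      rw [div_le_one hlog]
      exact hle
    refine ⟨?_, small c₀ _ h.1 ?_⟩
    · exact div_lt_div_of_pos_left (by norm_num) (by linarith) (by linarith)
    · intro E hE0 hE
      refine Pool.Agent.Y298.GA.ak_ce hce hE0 ?_
      rwa [lt_div_iff₀ (by linarith)] at hE
  · intro C₁ lam C₂ β c₀ hC₁ hlam hβ h hrec
    have hce := Pool.Agent.Y298.SH.CD.cep_of_mem hd hC₁ hlam h.1 h.2
    refine small c₀ _ h.1 ?_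
    intro E hE0 hE
    refine Pool.Agent.Y298.GA.ak_rec (C₂ := C₂) hce hrec hβ hE0 ?_
    rw [lt_div_iff₀ (by positivity)] at hE
    rw [lt_div_iff₀ hd1]
    linarith
  obtain ⟨β, hβ⟩ := Pool.Agent.H713R2.exists_beta (d := d) hd
  refine ⟨⟨_, Pool.Agent.H713R2.exteriorMap_of_beta hβ⟩, ?_⟩
  intro ψ hψ
  filter_upwards [Pool.Agent.Y272.TY.ae_neg' (Pool.Agent.Y272.TY.typical_all hd hβ)] with θ hθ
  obtain ⟨c₀, A, R, h⟩ := hθ
  obtain ⟨h1, h2, h3⟩ := Pool.Agent.Y298.CA.lyap_of_typ hd hβ h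
  exact ⟨c₀, h.frontier hd hβ, h.tendsto_psi hβ hψ, key _ c₀ h1 h2 h3⟩

end Pool.Agent.Results.MP_70a088_an.RationalNearColletEckmann
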